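import Pool.Agent.Lib.Model_H15.Crit

/-! # Models in the sense of Zariski: resolutions from finite families of charts

`resolution_of_model`: let `A` be a domain of finite type over a field `k`, inside a field `K`, and
`C i` finitely many `A`-subalgebras of `K` such that (1) the ring generated by two of them is a
localization of each, (2) every valuation ring of `K` that contains `A` contains one of them,
(3) they are smooth over `k`, and (4) their elements are fractions of elements of `A`.
Then `Spec A` has a resolution of singularities. -/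

set_option autoImplicit false

open AlgebraicGeometry CategoryTheory Limits

namespace Pool.Agent.H15Model

section General

variable {A B : Type} [CommRing A] [CommRing B]

lemma isIso_restrict_of_away (g : A →+* B) (a : A) (hinj : Function.Injective g)
    (hsurj : ∀ z : B, ∃ (n : ℕ) (r : A), z * g a ^ n = g r) :
    IsIso (Spec.map (CommRingCat.ofHom g) ∣_ (PrimeSpectrum.basicOpen a)) := by
  have hbij : Function.Bijective (Localization.awayMap g a) := by
    constructor
    · unfold Localization.awayMap IsLocalization.Away.map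
      have : IsLocalization (Submonoid.map g (Submonoid.powers a)) (Localization.Away (g a)) := by
        rw [Submonoid.map_powers]
        infer_instance
      exact IsLocalization.map_injective_of_injective _ _ _ hinj
    · intro z
      obtain ⟨s, ⟨_, n, rfl⟩, rfl⟩ := IsLocalization.exists_mk'_eq (Submonoid.powers (g a)) z
      obtain ⟨m, r, hr⟩ := hsurj s
      refine ⟨IsLocalization.mk' _ r (⟨a ^ (m + n), ⟨m + n, rfl⟩⟩ : Submonoid.powers a), ?_⟩
      unfold Localization.awayMap IsLocalization.Away.map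
      rw [IsLocalization.map_mk', IsLocalization.mk'_eq_iff_eq]
      simp only [map_pow]
      rw [← hr]
      congr 1
      ring
  have h1 : IsIso (Spec.map (CommRingCat.ofHom
      (Localization.awayMap (CommRingCat.ofHom g).hom a))) := by
    have : IsIso (CommRingCat.ofHom (Localization.awayMap (CommRingCat.ofHom g).hom a)) := by
      apply (ConcreteCategory.isIso_iff_bijective _).mpr
      exact hbij
    infer_instance
  exact ((MorphismProperty.isomorphisms Scheme).arrow_mk_iso_iff
    (SpecMapRestrictBasicOpenIso (CommRingCat.ofHom g) a)).mpr h1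

end General

variable {A K : Type} [CommRing A] [Field K] [Algebra A K]
variable {ι : Type} [DecidableEq ι] (C : ι → Subalgebra A K) [hC : IsGluable C]

omit [DecidableEq ι] in
lemma Mod.le_single (S : Idx ι) : ∃ (i : ι) (T : Idx ι), T.fs = {i} ∧ S ≤ T := by
  obtain ⟨i, hi⟩ := S.nonempty
  refine ⟨i, Idx.mk {i} (Finset.singleton_nonempty i), rfl, ?_⟩
  change {i} ⊆ S.fs
  exact Finset.singleton_subset_iff.mpr hi

instance Mod.isReduced : IsReduced (Mod C) := by
  have (S : (Mod.cover C).I₀) : IsReduced ((Mod.cover C).X S) :=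
    inferInstanceAs (IsReduced (Spec (CommRingCat.of (supC C (Idx.fs S)))))
  exact .of_openCover _ (Mod.cover C)

/-- the inclusions of the charts are compatible with an arbitrary index. -/
lemma Mod.chart_eq {S T : Idx ι} (h : S ≤ T) (x : Spec (CommRingCat.of (supC C S.fs))) :
    Mod.chart C T (Spec.map (CommRingCat.ofHom (inc C h)) x) = Mod.chart C S x := by
  rw [← Scheme.Hom.comp_apply, Mod.w]

/-- the generic point of a chart -/
noncomputable def genPt (S : Idx ι) : ↥(Spec (CommRingCat.of (supC C S.fs))) :=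
  (⊥ : PrimeSpectrum (supC C S.fs))

omit [DecidableEq ι] hC in
lemma genPt_specializes (S : Idx ι) (x : ↥(Spec (CommRingCat.of (supC C S.fs)))) :
    genPt C S ⤳ x := (PrimeSpectrum.le_iff_specializes _ _).mp bot_le

omit [DecidableEq ι] hC in
lemma genPt_map {S T : Idx ι} (h : S ≤ T) :
    Spec.map (CommRingCat.ofHom (inc C h)) (genPt C S) = genPt C T := by
  apply PrimeSpectrum.ext
  change Ideal.comap (inc C h) ⊥ = ⊥
  rw [← RingHom.ker_eq_comap_bot, ← RingHom.injective_iff_ker_eq_bot]
  intro a b hab
  exact Subtype.ext (congrArg (fun z : supC C S.fs => (z : K)) hab)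

lemma Mod.chart_genPt {S T : Idx ι} (h : S ≤ T) :
    Mod.chart C T (genPt C T) = Mod.chart C S (genPt C S) := by
  rw [← genPt_map C h, Mod.chart_eq]

instance Mod.irreducible [Nonempty ι] : IrreducibleSpace (Mod C) := by
  have hpre : PreirreducibleSpace (Mod C) := by
    constructor
    rintro U V hU hV ⟨y, -, hy⟩ ⟨y', -, hy'⟩
    obtain ⟨S, x, rfl⟩ := Mod.exists_chart C y
    obtain ⟨T, x', rfl⟩ := Mod.exists_chart C y'
    obtain ⟨W, hWS, hWT⟩ : ∃ W : Idx ι, W ≤ S ∧ W ≤ T :=
      ⟨Idx.mk (S.fs ∪ T.fs) (S.nonempty.mono Finset.subset_union_left),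
        Finset.subset_union_left, Finset.subset_union_right⟩
    have hS : Mod.chart C S (genPt C S) ∈ U :=
      ((genPt_specializes C S x).map (Mod.chart C S).continuous).mem_open hU hy
    have hT : Mod.chart C T (genPt C T) ∈ V :=
      ((genPt_specializes C T x').map (Mod.chart C T).continuous).mem_open hV hy'
    rw [Mod.chart_genPt C hWS] at hS
    rw [Mod.chart_genPt C hWT] at hT
    exact ⟨_, trivial, hS, hT⟩
  have hne : Nonempty (Mod C) := by
    obtain ⟨i⟩ := ‹Nonempty ι›
    exact ⟨Mod.chart C (Idx.mk {i} (Finset.singleton_nonempty i)) (genPt C _)⟩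
  exact { toPreirreducibleSpace := hpre, toNonempty := hne }

instance Mod.isIntegral [Nonempty ι] : IsIntegral (Mod C) :=
  isIntegral_of_irreducibleSpace_of_isReduced _

instance Mod.compact [Finite ι] : CompactSpace (Mod C) := by
  have (S : (Mod.cover C).I₀) : CompactSpace ((Mod.cover C).X S) :=
    inferInstanceAs (CompactSpace (Spec (CommRingCat.of (supC C (Idx.fs S)))))
  have : Finite (Mod.cover C).I₀ := inferInstanceAs (Finite (Idx ι))
  exact (Mod.cover C).compactSpace

instance Mod.quasiCompact [Finite ι] : QuasiCompact (Mod.π C) :=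
  (quasiCompact_iff_compactSpace _).mpr inferInstance

omit [DecidableEq ι] hC in
lemma supC_of_fs {T : Idx ι} {i : ι} (hT : T.fs = {i}) : supC C T.fs = C i := by
  rw [hT, supC_singleton]

lemma Mod.finiteType_chart (hft : ∀ i, Algebra.FiniteType A (C i)) (S : Idx ι) :
    LocallyOfFiniteType (Mod.chart C S ≫ Mod.π C) := by
  obtain ⟨i, T, hT, hST⟩ := Mod.le_single S
  have h2 : IsOpenImmersion (Spec.map (CommRingCat.ofHom (inc C hST))) :=
    isOpenImmersion_map C (homOfLE hST)
  have h3 : LocallyOfFiniteType (Mod.chart C T ≫ Mod.π C) := by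
    rw [Mod.chart_π, HasRingHomProperty.Spec_iff (P := @LocallyOfFiniteType)]
    have : Algebra.FiniteType A (supC C T.fs) := by
      rw [supC_of_fs C hT]; exact hft i
    exact (RingHom.finiteType_algebraMap).mpr this
  rw [← Mod.w C hST, Category.assoc]
  infer_instance

lemma Mod.finiteType (hft : ∀ i, Algebra.FiniteType A (C i)) :
    LocallyOfFiniteType (Mod.π C) := by
  have hloc : IsZariskiLocalAtSource @LocallyOfFiniteType :=
    HasRingHomProperty.instIsZariskiLocalAtSource (Q := RingHom.FiniteType)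
  rw [hloc.iff_of_openCover (P := @LocallyOfFiniteType) (Mod.cover C)]
  intro S
  exact Mod.finiteType_chart C hft S

lemma Mod.isProper [Finite ι] [IsNoetherianRing A] (hft : ∀ i, Algebra.FiniteType A (C i))
    (hval : ∀ V : ValuationSubring K, (∀ a : A, algebraMap A K a ∈ V) →
    ∃ i, ∀ c ∈ C i, c ∈ V) : IsProper (Mod.π C) := by
  have h1 := Mod.finiteType C hft
  have h2 : IsLocallyNoetherian (Mod C) := LocallyOfFiniteType.isLocallyNoetherian (Mod.π C)
  have h3 : QuasiSeparated (Mod.π C) := inferInstance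
  exact IsProper.of_valuativeCriterion _
    (ValuativeCriterion.iff.mpr ⟨Mod.existence C hval, Mod.uniqueness C⟩)

lemma Mod.smooth_chart {k : Type} [Field k] [Algebra k A] [Algebra k K] [IsScalarTower k A K]
    (hsm : ∀ i, Algebra.Smooth k (C i)) (S : Idx ι) :
    Smooth (Mod.chart C S ≫ Mod.π C ≫ Spec.map (CommRingCat.ofHom (algebraMap k A))) := by
  obtain ⟨i, T, hT, hST⟩ := Mod.le_single S
  have h2 : IsOpenImmersion (Spec.map (CommRingCat.ofHom (inc C hST))) :=
    isOpenImmersion_map C (homOfLE hST)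
  have h3 : Smooth (Mod.chart C T ≫ Mod.π C ≫ Spec.map (CommRingCat.ofHom (algebraMap k A))) := by
    rw [← Category.assoc, Mod.chart_π, ← Spec.map_comp, ← CommRingCat.ofHom_comp,
      HasRingHomProperty.Spec_iff (P := @Smooth)]
    have h4 : Algebra.Smooth k (supC C T.fs) := by
      rw [supC_of_fs C hT]; exact hsm i
    have h5 : (algebraMap A (supC C T.fs)).comp (algebraMap k A) =
        algebraMap k (supC C T.fs) := (IsScalarTower.algebraMap_eq k A (supC C T.fs)).symm
    change RingHom.Smooth ((algebraMap A (supC C T.fs)).comp (algebraMap k A))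
    rw [h5]
    exact (RingHom.smooth_algebraMap).mpr h4
  rw [← Mod.w C hST, Category.assoc]
  infer_instance

lemma Mod.smooth {k : Type} [Field k] [Algebra k A] [Algebra k K] [IsScalarTower k A K]
    (hsm : ∀ i, Algebra.Smooth k (C i)) :
    Smooth (Mod.π C ≫ Spec.map (CommRingCat.ofHom (algebraMap k A))) := by
  have hloc : IsZariskiLocalAtSource @Smooth :=
    HasRingHomProperty.instIsZariskiLocalAtSource (Q := RingHom.Smooth)
  rw [hloc.iff_of_openCover (P := @Smooth) (Mod.cover C)]
  intro S
  exact Mod.smooth_chart C hsm S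

/-- The structure morphism is an isomorphism over `D(a)` as soon as `a` is a common denominator. -/
lemma Mod.isIso_restrict [Finite ι] [Nonempty ι] (hinj : Function.Injective (algebraMap A K))
    (a : A) (ha : a ≠ 0)
    (hfrac : ∀ i, ∀ c ∈ C i, ∃ (n : ℕ) (r : A), c * algebraMap A K a ^ n = algebraMap A K r) :
    IsIso (Mod.π C ∣_ (PrimeSpectrum.basicOpen a)) := by
  have ha' : algebraMap A K a ≠ 0 := (map_ne_zero_iff _ hinj).mpr ha
  -- fractions for all the rings
  have hall : ∀ (S : Finset ι), ∀ c ∈ supC C S, ∃ (n : ℕ) (r : A),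
      c * algebraMap A K a ^ n = algebraMap A K r := by
    intro S
    induction S using Finset.induction with
    | empty =>
      intro c hc
      have : supC C (∅ : Finset ι) = ⊥ := Finset.sup_empty
      rw [this] at hc
      obtain ⟨r, rfl⟩ := Algebra.mem_bot.mp hc
      exact ⟨0, r, by simp⟩
    | insert i S hi ih =>
      intro c hc
      have h1 : supC C (insert i S) = C i ⊔ supC C S := Finset.sup_insert
      rw [h1] at hc
      have hc' : c ∈ Algebra.adjoin A ((C i : Set K) ∪ (supC C S : Set K)) := hc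
      induction hc' using Algebra.adjoin_induction with
      | mem x hx =>
        rcases hx with hx | hx
        · exact hfrac i x hx
        · exact ih x hx
      | algebraMap r => exact ⟨0, r, by simp⟩
      | add x y hx hy ihx ihy =>
        obtain ⟨n, r, hr⟩ := ihx hx
        obtain ⟨m, s, hs⟩ := ihy hy
        refine ⟨n + m, r * a ^ m + s * a ^ n, ?_⟩
        rw [map_add, map_mul, map_mul, ← hr, ← hs, map_pow, map_pow]
        ring
      | mul x y hx hy ihx ihy =>
        obtain ⟨n, r, hr⟩ := ihx hx
        obtain ⟨m, s, hs⟩ := ihy hy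
        refine ⟨n + m, r * s, ?_⟩
        rw [map_mul, ← hr, ← hs]
        ring
  obtain ⟨W, hW⟩ : ∃ W : Idx ι, ∀ S : Idx ι, W ≤ S := by
    have : Fintype ι := Fintype.ofFinite ι
    exact ⟨Idx.mk Finset.univ Finset.univ_nonempty, fun S => Finset.subset_univ _⟩
  set U : (Spec (CommRingCat.of A)).Opens := PrimeSpectrum.basicOpen a with hU
  have hA : ∀ S : Idx ι, Function.Injective (algebraMap A (supC C S.fs)) := by
    intro S x y hxy
    exact hinj (congrArg (fun z : supC C S.fs => (z : K)) hxy)
  have hB : ∀ S : Idx ι, ∀ z : supC C S.fs, ∃ (n : ℕ) (r : A),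
      z * algebraMap A (supC C S.fs) a ^ n = algebraMap A (supC C S.fs) r := by
    intro S z
    obtain ⟨n, r, hr⟩ := hall S.fs z z.2
    exact ⟨n, r, Subtype.ext hr⟩
  have h1 : IsIso ((Mod.chart C W ≫ Mod.π C) ∣_ U) := by
    rw [Mod.chart_π]
    exact isIso_restrict_of_away _ a (hA W) (hB W)
  rw [morphismRestrict_comp] at h1
  have h2 : IsIso (Mod.chart C W ∣_ (Mod.π C ⁻¹ᵁ U)) := by
    have h3 : IsOpenImmersion (Mod.chart C W ∣_ (Mod.π C ⁻¹ᵁ U)) := inferInstance
    have h4 : Function.Surjective (Mod.chart C W ∣_ (Mod.π C ⁻¹ᵁ U)) := by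
      rintro ⟨y, hy⟩
      obtain ⟨S, x, hx⟩ := Mod.exists_chart C y
      -- the point of the chart `S` lifts to the chart `W`
      obtain ⟨u, hu⟩ := isAway_supC_of_subset C hC.away S.nonempty (Idx.subset (hW S))
      have hy' : (Mod.chart C S ≫ Mod.π C) x ∈ U := by
        rw [Scheme.Hom.comp_apply, hx]; exact hy
      rw [Mod.chart_π] at hy'
      have hax : algebraMap A (supC C S.fs) a ∉ (show PrimeSpectrum (supC C S.fs) from x).asIdeal :=
        hy'
      have hux : (⟨u, hu.2.1⟩ : supC C S.fs) ∉
          (show PrimeSpectrum (supC C S.fs) from x).asIdeal := by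
        intro hmem
        obtain ⟨n, r, hr⟩ := hall W.fs u⁻¹ hu.2.2.2.1
        have h5 : (⟨u, hu.2.1⟩ : supC C S.fs) * algebraMap A (supC C S.fs) r =
            algebraMap A (supC C S.fs) a ^ n := by
          apply Subtype.ext
          change u * algebraMap A K r = algebraMap A K a ^ n
          rw [← hr, ← mul_assoc, mul_inv_cancel₀ hu.2.2.1, one_mul]
        have h6 := Ideal.mul_mem_right (algebraMap A (supC C S.fs) r) _ hmem
        rw [h5] at h6
        exact hax ((show PrimeSpectrum (supC C S.fs) from x).2.mem_of_pow_mem _ h6)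
      obtain ⟨z, hz'⟩ : ∃ z : ↥(Spec (CommRingCat.of (supC C W.fs))),
          Spec.map (CommRingCat.ofHom (inc C (hW S))) z = x :=
        exists_comap_eq_of_awayOf hu _ hux
      have hzy : Mod.chart C W z = y := by
        rw [← hx, ← hz', Mod.chart_eq]
      refine ⟨⟨z, by
        change Mod.chart C W z ∈ Mod.π C ⁻¹ᵁ U
        rw [hzy]; exact hy⟩, ?_⟩
      apply Subtype.ext
      exact (morphismRestrict_base_coe _ _ _).trans hzy
    have h6 : Epi (Mod.chart C W ∣_ (Mod.π C ⁻¹ᵁ U)).base := by
      rw [TopCat.epi_iff_surjective]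
      exact h4
    exact IsOpenImmersion.isIso _
  have h7 : IsIso ((Mod.chart C W ∣_ (Mod.π C ⁻¹ᵁ U)) ≫ (Mod.π C ∣_ U)) := h1
  exact IsIso.of_isIso_comp_left (Mod.chart C W ∣_ (Mod.π C ⁻¹ᵁ U)) (Mod.π C ∣_ U)

/-- A finite family of smooth affine charts, gluable and complete in the sense of Zariski, gives a
resolution of singularities. -/
theorem resolution_of_model {k A K ι : Type} [Field k] [CommRing A] [IsDomain A] [Algebra k A]
    [Algebra.FiniteType k A] [Field K] [Algebra A K] [Algebra k K] [IsScalarTower k A K]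
    (hinj : Function.Injective (algebraMap A K)) [Finite ι] [Nonempty ι]
    (C : ι → Subalgebra A K)
    (hglue : ∀ i j, IsAway (C i) (C i ⊔ C j))
    (hval : ∀ V : ValuationSubring K, (∀ a : A, algebraMap A K a ∈ V) → ∃ i, ∀ c ∈ C i, c ∈ V)
    (hsm : ∀ i, Algebra.Smooth k (C i))
    (hfrac : ∀ i, ∀ c ∈ C i, ∃ a b : A, b ≠ 0 ∧ c * algebraMap A K b = algebraMap A K a) :
    ∃ (Y : Scheme.{0}) (π : Y ⟶ Spec (CommRingCat.of A)),
        AlgebraicGeometry.IsIntegral Y ∧ AlgebraicGeometry.IsProper π ∧
        AlgebraicGeometry.Smooth (π ≫ Spec.map (CommRingCat.ofHom (algebraMap k A))) ∧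
        ∃ U : (Spec (CommRingCat.of A)).Opens, Dense (U : Set (Spec (CommRingCat.of A))) ∧
          IsIso (π ∣_ U) := by
  classical
  have hG : IsGluable C := ⟨hglue⟩
  have hft : ∀ i, Algebra.FiniteType A (C i) := by
    intro i
    have h1 := hsm i
    have h2 : Algebra.FiniteType k (C i) := inferInstance
    exact Algebra.FiniteType.of_restrictScalars_finiteType k A (C i)
  have hnoeth : IsNoetherianRing A := Algebra.FiniteType.isNoetherianRing k A
  -- a common denominator
  have hden : ∀ i, ∃ a : A, a ≠ 0 ∧ ∀ c ∈ C i, ∃ (n : ℕ) (r : A),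
      c * algebraMap A K a ^ n = algebraMap A K r := by
    intro i
    obtain ⟨s, hs⟩ := (hft i).1
    have hs' : ∀ x : C i, ∃ b : A, b ≠ 0 ∧ ∃ r : A, (x : K) * algebraMap A K b = algebraMap A K r := by
      intro x
      obtain ⟨r, b, hb, h⟩ := hfrac i x x.2
      exact ⟨b, hb, r, h⟩
    choose f hf0 hf using hs'
    refine ⟨∏ x ∈ s, f x, Finset.prod_ne_zero_iff.mpr (fun x _ => hf0 x), ?_⟩
    intro c hc
    have hc' : (⟨c, hc⟩ : C i) ∈ Algebra.adjoin A (s : Set (C i)) := by rw [hs]; trivial
    suffices h : ∀ z : C i, z ∈ Algebra.adjoin A (s : Set (C i)) → ∃ (n : ℕ) (r : A),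
        (z : K) * algebraMap A K (∏ x ∈ s, f x) ^ n = algebraMap A K r from h _ hc'
    intro z hz
    induction hz using Algebra.adjoin_induction with
    | mem x hx =>
      obtain ⟨r, hr⟩ := hf x
      refine ⟨1, r * ∏ y ∈ s.erase x, f y, ?_⟩
      rw [← Finset.mul_prod_erase s f hx, map_mul, map_mul, pow_one, ← hr]
      ring
    | algebraMap r => exact ⟨0, r, by simp⟩
    | add x y _ _ ihx ihy =>
      obtain ⟨n, r, hr⟩ := ihx
      obtain ⟨m, t, ht⟩ := ihy
      refine ⟨n + m, r * (∏ x ∈ s, f x) ^ m + t * (∏ x ∈ s, f x) ^ n, ?_⟩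
      rw [map_add, map_mul, map_mul, ← hr, ← ht, map_pow, map_pow]
      push_cast
      ring
    | mul x y _ _ ihx ihy =>
      obtain ⟨n, r, hr⟩ := ihx
      obtain ⟨m, t, ht⟩ := ihy
      refine ⟨n + m, r * t, ?_⟩
      rw [map_mul, ← hr, ← ht]
      push_cast
      ring
  choose a ha0 ha using hden
  have : Fintype ι := Fintype.ofFinite ι
  have hprod : ∀ i, ∀ c ∈ C i, ∃ (n : ℕ) (r : A),
      c * algebraMap A K (∏ i, a i) ^ n = algebraMap A K r := by
    intro i c hc
    obtain ⟨n, r, hr⟩ := ha i c hc
    refine ⟨n, r * (∏ j ∈ Finset.univ.erase i, a j) ^ n, ?_⟩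
    rw [← Finset.mul_prod_erase Finset.univ a (Finset.mem_univ i), map_mul, map_mul, ← hr, map_pow]
    ring
  have hne : (∏ i, a i) ≠ 0 := Finset.prod_ne_zero_iff.mpr (fun x _ => ha0 x)
  refine ⟨Mod C, Mod.π C, inferInstance, Mod.isProper C hft hval, Mod.smooth C hsm,
    PrimeSpectrum.basicOpen (∏ i, a i), ?_, Mod.isIso_restrict C hinj _ hne hprod⟩
  -- density of a nonempty open subset of an irreducible space
  have hirr : IrreducibleSpace (PrimeSpectrum A) := inferInstance
  have hop : IsOpen (PrimeSpectrum.basicOpen (∏ i, a i) : Set (PrimeSpectrum A)) :=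
    (PrimeSpectrum.basicOpen (∏ i, a i)).2
  refine hop.dense (X := PrimeSpectrum A) ⟨(⊥ : PrimeSpectrum A), ?_⟩
  change (∏ i, a i) ∉ (⊥ : Ideal A)
  rwa [Ideal.mem_bot]

end Pool.Agent.H15Model
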