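import Mathlib

/-! # Models in the sense of Zariski: localizations inside a field -/

set_option autoImplicit false

namespace Pool.Agent.H15Model

variable {A K : Type} [CommRing A] [Field K] [Algebra A K]

/-- `C'` is the localization of `C` at the powers of the nonzero element `u`. -/
def AwayOf (u : K) (C C' : Subalgebra A K) : Prop :=
  C ≤ C' ∧ u ∈ C ∧ u ≠ 0 ∧ u⁻¹ ∈ C' ∧ ∀ z ∈ C', ∃ n : ℕ, z * u ^ n ∈ C

/-- `C'` is the localization of `C` at the powers of some nonzero element. -/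
def IsAway (C C' : Subalgebra A K) : Prop := ∃ u, AwayOf u C C'

lemma AwayOf.refl (C : Subalgebra A K) : AwayOf 1 C C :=
  ⟨le_rfl, one_mem _, one_ne_zero, by rw [inv_one]; exact one_mem _,
    fun z hz => ⟨0, by simpa using hz⟩⟩

lemma IsAway.refl (C : Subalgebra A K) : IsAway C C := ⟨1, AwayOf.refl C⟩

lemma IsAway.le {C C' : Subalgebra A K} (h : IsAway C C') : C ≤ C' := h.choose_spec.1

lemma AwayOf.mul_pow_mem {u : K} {C C' : Subalgebra A K} (h : AwayOf u C C') {z : K} {n N : ℕ}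
    (hz : z * u ^ n ∈ C) (hN : n ≤ N) : z * u ^ N ∈ C := by
  obtain ⟨d, rfl⟩ := Nat.exists_eq_add_of_le hN
  rw [pow_add, ← mul_assoc]
  exact mul_mem hz (pow_mem h.2.1 _)

lemma IsAway.trans {C C' C'' : Subalgebra A K} (h : IsAway C C') (h' : IsAway C' C'') :
    IsAway C C'' := by
  obtain ⟨u, hu⟩ := h
  obtain ⟨v, hv⟩ := h'
  obtain ⟨n, hn⟩ := hu.2.2.2.2 v hv.2.1
  have hu0 := hu.2.2.1
  have hv0 := hv.2.2.1
  refine ⟨u * (v * u ^ n), hu.1.trans hv.1, mul_mem hu.2.1 hn,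
    mul_ne_zero hu0 (mul_ne_zero hv0 (pow_ne_zero _ hu0)), ?_, ?_⟩
  · rw [mul_inv, mul_inv, ← inv_pow]
    exact mul_mem (hv.1 hu.2.2.2.1) (mul_mem hv.2.2.2.1 (pow_mem (hv.1 hu.2.2.2.1) _))
  · intro z hz
    obtain ⟨m, hm⟩ := hv.2.2.2.2 z hz
    obtain ⟨r, hr⟩ := hu.2.2.2.2 _ hm
    refine ⟨m + r, ?_⟩
    have : z * (u * (v * u ^ n)) ^ (m + r) =
        (z * v ^ m * u ^ r) * (u ^ m * u ^ (n * m) * (v * u ^ n) ^ r) := by ring
    rw [this]
    exact mul_mem hr (mul_mem (mul_mem (pow_mem hu.2.1 _) (pow_mem hu.2.1 _)) (pow_mem hn _))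

lemma AwayOf.sup_right {u : K} {C C₂ C' : Subalgebra A K} (h : AwayOf u C C₂) (hC : C ≤ C') :
    AwayOf u C' (C' ⊔ C₂) := by
  refine ⟨le_sup_left, hC h.2.1, h.2.2.1, (le_sup_right : C₂ ≤ C' ⊔ C₂) h.2.2.2.1, ?_⟩
  intro z hz
  have hz' : z ∈ Algebra.adjoin A ((C' : Set K) ∪ (C₂ : Set K)) := hz
  induction hz' using Algebra.adjoin_induction with
  | mem x hx =>
    rcases hx with hx | hx
    · exact ⟨0, by simpa using hx⟩
    · obtain ⟨n, hn⟩ := h.2.2.2.2 x hx
      exact ⟨n, hC hn⟩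
  | algebraMap r => exact ⟨0, by simp⟩
  | add x y hx hy ihx ihy =>
    obtain ⟨n, hn⟩ := ihx hx
    obtain ⟨m, hm⟩ := ihy hy
    refine ⟨n + m, ?_⟩
    have : (x + y) * u ^ (n + m) = (x * u ^ n) * u ^ m + (y * u ^ m) * u ^ n := by ring
    rw [this]
    exact add_mem (mul_mem hn (pow_mem (hC h.2.1) _)) (mul_mem hm (pow_mem (hC h.2.1) _))
  | mul x y hx hy ihx ihy =>
    obtain ⟨n, hn⟩ := ihx hx
    obtain ⟨m, hm⟩ := ihy hy
    refine ⟨n + m, ?_⟩
    have : (x * y) * u ^ (n + m) = (x * u ^ n) * (y * u ^ m) := by ring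
    rw [this]
    exact mul_mem hn hm

lemma IsAway.sup_right {C C₂ C' : Subalgebra A K} (h : IsAway C C₂) (hC : C ≤ C') :
    IsAway C' (C' ⊔ C₂) := ⟨h.choose, h.choose_spec.sup_right hC⟩

lemma IsAway.sup {C C₁ C₂ : Subalgebra A K} (h₁ : IsAway C C₁) (h₂ : IsAway C C₂) :
    IsAway C (C₁ ⊔ C₂) := h₁.trans (h₂.sup_right h₁.le)

/-- If `C'` is generated over `C` by elements that become elements of `C` after multiplication
by a power of `u`, and contains `u⁻¹`. -/
lemma awayOf_of_generated {u : K} {C C' : Subalgebra A K} (hle : C ≤ C') (hu : u ∈ C)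
    (hu0 : u ≠ 0) (hinv : u⁻¹ ∈ C') (S : Set K) (hS : ∀ z ∈ S, ∃ n : ℕ, z * u ^ n ∈ C)
    (hC' : C' ≤ C ⊔ Algebra.adjoin A S) : AwayOf u C C' := by
  refine ⟨hle, hu, hu0, hinv, ?_⟩
  intro z hz
  have hz' : z ∈ Algebra.adjoin A ((C : Set K) ∪ S) := by
    have h1 := hC' hz
    have h2 : C ⊔ Algebra.adjoin A S ≤ Algebra.adjoin A ((C : Set K) ∪ S) := by
      rw [Algebra.adjoin_union, Algebra.adjoin_eq]
    exact h2 h1
  clear hz
  induction hz' using Algebra.adjoin_induction with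
  | mem x hx =>
    rcases hx with hx | hx
    · exact ⟨0, by simpa using hx⟩
    · exact hS x hx
  | algebraMap r => exact ⟨0, by simp⟩
  | add x y _ _ ihx ihy =>
    obtain ⟨n, hn⟩ := ihx
    obtain ⟨m, hm⟩ := ihy
    refine ⟨n + m, ?_⟩
    have : (x + y) * u ^ (n + m) = (x * u ^ n) * u ^ m + (y * u ^ m) * u ^ n := by ring
    rw [this]
    exact add_mem (mul_mem hn (pow_mem hu _)) (mul_mem hm (pow_mem hu _))
  | mul x y _ _ ihx ihy =>
    obtain ⟨n, hn⟩ := ihx
    obtain ⟨m, hm⟩ := ihy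
    refine ⟨n + m, ?_⟩
    have : (x * y) * u ^ (n + m) = (x * u ^ n) * (y * u ^ m) := by ring
    rw [this]
    exact mul_mem hn hm

lemma isLocalization_of_awayOf {C C' : Subalgebra A K} {u : K} (h : AwayOf u C C') :
    letI := (Subalgebra.inclusion h.1).toRingHom.toAlgebra
    IsLocalization.Away (⟨u, h.2.1⟩ : C) C' := by
  let := (Subalgebra.inclusion h.1).toRingHom.toAlgebra
  obtain ⟨hle, hu, hu0, hinv, hz⟩ := h
  have hval : ∀ x : C, ((algebraMap C C' x : C') : K) = x := fun x => rfl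
  refine IsLocalization.Away.mk _ ?_ ?_ ?_
  · refine ⟨⟨⟨u, hle hu⟩, ⟨u⁻¹, hinv⟩, ?_, ?_⟩, rfl⟩
    · ext1; exact mul_inv_cancel₀ hu0
    · ext1; exact inv_mul_cancel₀ hu0
  · intro z
    obtain ⟨n, hn⟩ := hz z.1 z.2
    refine ⟨n, ⟨_, hn⟩, ?_⟩
    ext1
    rfl
  · intro x y hxy
    have h1 : ((algebraMap C C' x : C') : K) = (algebraMap C C' y : C') := by rw [hxy]
    rw [hval, hval] at h1
    exact ⟨0, by simpa using Subtype.ext h1⟩

section Family

variable {ι : Type} [DecidableEq ι] (C : ι → Subalgebra A K)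

/-- the ring generated by the rings with index in `S`. -/
noncomputable def supC (S : Finset ι) : Subalgebra A K := S.sup C

omit [DecidableEq ι] in
lemma supC_mono {S T : Finset ι} (h : S ⊆ T) : supC C S ≤ supC C T := Finset.sup_mono h

lemma supC_union (S T : Finset ι) : supC C (S ∪ T) = supC C S ⊔ supC C T := Finset.sup_union

omit [DecidableEq ι] in
lemma le_supC {S : Finset ι} {i : ι} (h : i ∈ S) : C i ≤ supC C S := Finset.le_sup h

omit [DecidableEq ι] in
lemma supC_singleton (i : ι) : supC C {i} = C i := Finset.sup_singleton ..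

lemma isAway_supC (hC : ∀ i j, IsAway (C i) (C i ⊔ C j)) {T : Finset ι} (hT : T.Nonempty)
    (S : Finset ι) : IsAway (supC C T) (supC C T ⊔ supC C S) := by
  obtain ⟨j₀, hj₀⟩ := hT
  induction S using Finset.induction with
  | empty =>
    have : supC C (∅ : Finset ι) = ⊥ := Finset.sup_empty
    rw [this, sup_bot_eq]
    exact IsAway.refl _
  | insert i S hi ih =>
    have h1 : supC C (insert i S) = C i ⊔ supC C S := Finset.sup_insert
    have h2 : supC C T ⊔ supC C (insert i S) =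
        (supC C T ⊔ supC C S) ⊔ (supC C T ⊔ (C j₀ ⊔ C i)) := by
      rw [h1]
      apply le_antisymm
      · refine sup_le (le_sup_of_le_left le_sup_left) (sup_le ?_ ?_)
        · exact le_sup_of_le_right (le_sup_of_le_right le_sup_right)
        · exact le_sup_of_le_left le_sup_right
      · refine sup_le (sup_le le_sup_left ?_) (sup_le le_sup_left (sup_le ?_ ?_))
        · exact le_sup_of_le_right le_sup_right
        · exact le_sup_of_le_left (le_supC C hj₀)
        · exact le_sup_of_le_right le_sup_left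
    rw [h2]
    exact ih.sup ((hC j₀ i).sup_right (le_supC C hj₀))

lemma isAway_supC_of_subset (hC : ∀ i j, IsAway (C i) (C i ⊔ C j)) {T S : Finset ι}
    (hT : T.Nonempty) (h : T ⊆ S) : IsAway (supC C T) (supC C S) := by
  have := isAway_supC C hC hT S
  rwa [sup_eq_right.mpr (supC_mono C h)] at this

end Family

end Pool.Agent.H15Model
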