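import Pool.Agent.Lib.Model_H15.Model

/-! # Models in the sense of Zariski: the valuative criterion -/

set_option autoImplicit false

open AlgebraicGeometry CategoryTheory Limits

namespace Pool.Agent.H15Model

variable {A K : Type} [CommRing A] [Field K] [Algebra A K]
variable {ι : Type} [DecidableEq ι] (C : ι → Subalgebra A K) [hC : IsGluable C]

lemma specMap_ext {R S : Type} [CommRing R] [CommRing S] (f g : R →+* S)
    (h : Spec.map (CommRingCat.ofHom f) = Spec.map (CommRingCat.ofHom g)) : f = g := by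
  have := Spec.map_injective h
  exact congrArg CommRingCat.Hom.hom this

lemma exists_lift_ringHom {B R L : Type} [CommRing B] [CommRing R] [Field L] [Algebra R L]
    (hinj : Function.Injective (algebraMap R L)) (χ : B →+* L)
    (h : ∀ b, ∃ r : R, algebraMap R L r = χ b) :
    ∃ χ' : B →+* R, ∀ b, algebraMap R L (χ' b) = χ b := by
  let e : R ≃+* (algebraMap R L).range := RingEquiv.ofBijective (algebraMap R L).rangeRestrict
    ⟨fun a b hab => hinj (congrArg Subtype.val hab), (algebraMap R L).rangeRestrict_surjective⟩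
  refine ⟨e.symm.toRingHom.comp (χ.codRestrict _ (fun b => RingHom.mem_range.mpr (h b))), ?_⟩
  intro b
  have : e ((e.symm.toRingHom.comp (χ.codRestrict _ (fun b => RingHom.mem_range.mpr (h b)))) b) =
    ⟨χ b, h b⟩ := e.apply_symm_apply _
  exact congrArg Subtype.val this

lemma Mod.glue_eq {R : Type} [CommRing R] {W S T : Idx ι} (hWS : W ≤ S) (hWT : W ≤ T)
    (χ : supC C W.fs →+* R) (φ : supC C S.fs →+* R) (θ : supC C T.fs →+* R)
    (h1 : χ.comp (inc C hWS) = φ) (h2 : χ.comp (inc C hWT) = θ) :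
    Spec.map (CommRingCat.ofHom θ) ≫ Mod.chart C T =
      Spec.map (CommRingCat.ofHom φ) ≫ Mod.chart C S := by
  rw [← h1, ← h2, CommRingCat.ofHom_comp, CommRingCat.ofHom_comp, Spec.map_comp, Spec.map_comp,
    Category.assoc, Category.assoc, Mod.w, Mod.w]

/-- the existence part -/
lemma Mod.existence (hval : ∀ V : ValuationSubring K, (∀ a : A, algebraMap A K a ∈ V) →
    ∃ i, ∀ c ∈ C i, c ∈ V) : ValuativeCriterion.Existence (Mod.π C) := by
  intro Q
  obtain ⟨S, x, hx⟩ := Mod.exists_chart C (Q.i₁ (IsLocalRing.closedPoint Q.K))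
  have hrange : Set.range Q.i₁ ⊆ Set.range (Mod.chart C S) := by
    rintro _ ⟨z, rfl⟩
    have : z = IsLocalRing.closedPoint Q.K := Subsingleton.elim _ _
    rw [this, ← hx]
    exact ⟨x, rfl⟩
  set g := IsOpenImmersion.lift (Mod.chart C S) Q.i₁ hrange with hg
  have hgfac : g ≫ Mod.chart C S = Q.i₁ := IsOpenImmersion.lift_fac _ _ _
  set φ : supC C S.fs →+* Q.K := (Spec.preimage g).hom with hφ
  set ψ : A →+* Q.R := (Spec.preimage Q.i₂).hom with hψ
  have hgφ : Spec.map (CommRingCat.ofHom φ) = g := Spec.map_preimage g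
  have hψ' : Spec.map (CommRingCat.ofHom ψ) = Q.i₂ := Spec.map_preimage Q.i₂
  have hcompat : φ.comp (algebraMap A (supC C S.fs)) = (algebraMap Q.R Q.K).comp ψ := by
    apply specMap_ext
    rw [CommRingCat.ofHom_comp, CommRingCat.ofHom_comp, Spec.map_comp, Spec.map_comp, hgφ, hψ',
      ← Mod.chart_π, ← Category.assoc, hgfac]
    exact Q.commSq.w
  obtain ⟨V, hVA, hV1, hV2⟩ := exists_valuation (R := Q.R) (supC C S.fs) φ ψ
    (fun a => congrArg (fun f : A →+* Q.K => f a) hcompat)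
  obtain ⟨j, hj⟩ := hval V hVA
  obtain ⟨T, hT⟩ : ∃ T : Idx ι, T.fs = {j} := ⟨Idx.mk {j} (Finset.singleton_nonempty j), rfl⟩
  obtain ⟨W, hW⟩ : ∃ W : Idx ι, W.fs = S.fs ∪ T.fs :=
    ⟨Idx.mk (S.fs ∪ T.fs) (S.nonempty.mono Finset.subset_union_left), rfl⟩
  have hWS : W ≤ S := by
    change S.fs ⊆ W.fs
    rw [hW]; exact Finset.subset_union_left
  have hWT : W ≤ T := by
    change T.fs ⊆ W.fs
    rw [hW]; exact Finset.subset_union_right
  obtain ⟨u, hu⟩ := isAway_supC C hC.away S.nonempty T.fs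
  obtain ⟨χ, θ, hχ, hθ⟩ := extend_to_chart (supC C S.fs) (supC C T.fs) hu φ V hV1 hV2
    (fun c hc => hj c (by rwa [hT, supC_singleton] at hc))
  have hWsup : supC C W.fs ≤ supC C S.fs ⊔ supC C T.fs := by rw [hW, supC_union]
  have h1 : (χ.comp (Subalgebra.inclusion hWsup).toRingHom).comp (inc C hWS) = φ := by
    ext d
    exact hχ d
  have h2 : (χ.comp (Subalgebra.inclusion hWsup).toRingHom).comp (inc C hWT) =
      (algebraMap Q.R Q.K).comp θ := by
    ext c
    exact hθ c
  have h3 : Spec.map (CommRingCat.ofHom ((algebraMap Q.R Q.K).comp θ)) ≫ Mod.chart C T =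
      Q.i₁ := by
    rw [Mod.glue_eq C hWS hWT _ _ _ h1 h2, hgφ, hgfac]
  refine ⟨⟨⟨Spec.map (CommRingCat.ofHom θ) ≫ Mod.chart C T, ?_, ?_⟩⟩⟩
  · rw [CommRingCat.ofHom_comp, Spec.map_comp, Category.assoc] at h3
    exact h3
  · rw [Category.assoc, Mod.chart_π, ← hψ', ← Spec.map_comp, ← CommRingCat.ofHom_comp]
    congr 2
    ext a
    apply IsFractionRing.injective Q.R Q.K
    have h3 := congrArg (fun f : supC C T.fs →+* Q.K => f (algebraMap A _ a)) h2
    have h4 := congrArg (fun f : supC C S.fs →+* Q.K => f (algebraMap A _ a)) h1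
    have h5 := congrArg (fun f : A →+* Q.K => f a) hcompat
    simp only [RingHom.comp_apply] at h3 h4 h5 ⊢
    rw [← h3, ← h5, ← h4]
    rfl

/-- A morphism from the spectrum of a local ring factors through a chart. -/
lemma Mod.local_factor {R : Type} [CommRing R] [IsLocalRing R]
    (l : Spec (CommRingCat.of R) ⟶ Mod C) : ∃ (S : Idx ι) (θ : supC C S.fs →+* R),
      Spec.map (CommRingCat.ofHom θ) ≫ Mod.chart C S = l := by
  obtain ⟨S, x, hx⟩ := Mod.exists_chart C (l (IsLocalRing.closedPoint R))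
  have hrange : Set.range l ⊆ Set.range (Mod.chart C S) := by
    rintro _ ⟨z, rfl⟩
    have h1 : z ⤳ IsLocalRing.closedPoint R := IsLocalRing.specializes_closedPoint z
    have h2 : l z ⤳ l (IsLocalRing.closedPoint R) := h1.map l.continuous
    refine h2.mem_open (Mod.chart C S).isOpenEmbedding.isOpen_range ?_
    rw [← hx]
    exact ⟨x, rfl⟩
  refine ⟨S, (Spec.preimage (IsOpenImmersion.lift (Mod.chart C S) l hrange)).hom, ?_⟩
  have : Spec.map (CommRingCat.ofHom
      (Spec.preimage (IsOpenImmersion.lift (Mod.chart C S) l hrange)).hom) =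
      IsOpenImmersion.lift (Mod.chart C S) l hrange := Spec.map_preimage _
  rw [this]
  exact IsOpenImmersion.lift_fac _ _ _

/-- the uniqueness part -/
lemma Mod.uniqueness : ValuativeCriterion.Uniqueness (Mod.π C) := by
  intro Q
  constructor
  rintro ⟨l, hl, hlπ⟩ ⟨l', hl', hlπ'⟩
  obtain ⟨S, θ, hθ⟩ := Mod.local_factor C l
  obtain ⟨T, θ', hθ'⟩ := Mod.local_factor C l'
  have hinjR : Function.Injective (algebraMap Q.R Q.K) := IsFractionRing.injective Q.R Q.K
  obtain ⟨p, hp⟩ : ∃ p : ↥(Spec (CommRingCat.of Q.K)), ∀ z, z = p :=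
    ⟨IsLocalRing.closedPoint Q.K, fun z => Subsingleton.elim _ _⟩
  have e1 : Spec.map (CommRingCat.ofHom ((algebraMap Q.R Q.K).comp θ)) ≫ Mod.chart C S =
      Q.i₁ := by
    rw [CommRingCat.ofHom_comp, Spec.map_comp, Category.assoc, hθ]
    exact hl
  have e2 : Spec.map (CommRingCat.ofHom ((algebraMap Q.R Q.K).comp θ')) ≫ Mod.chart C T =
      Q.i₁ := by
    rw [CommRingCat.ofHom_comp, Spec.map_comp, Category.assoc, hθ']
    exact hl'
  obtain ⟨W, hWS, hWT, z, hW, hzS, hzT⟩ := Mod.eq_iff C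
    (Spec.map (CommRingCat.ofHom ((algebraMap Q.R Q.K).comp θ)) p)
    (Spec.map (CommRingCat.ofHom ((algebraMap Q.R Q.K).comp θ')) p) (by
      rw [← Scheme.Hom.comp_apply, ← Scheme.Hom.comp_apply, e1, e2])
  have hrange : Set.range Q.i₁ ⊆ Set.range (Mod.chart C W) := by
    rintro _ ⟨z', rfl⟩
    rw [hp z', ← e1, Scheme.Hom.comp_apply, ← hzS, ← Scheme.Hom.comp_apply, Mod.w]
    exact ⟨z, rfl⟩
  set g := IsOpenImmersion.lift (Mod.chart C W) Q.i₁ hrange with hg
  have hgfac : g ≫ Mod.chart C W = Q.i₁ := IsOpenImmersion.lift_fac _ _ _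
  set χ : supC C W.fs →+* Q.K := (Spec.preimage g).hom with hχ
  have hgχ : Spec.map (CommRingCat.ofHom χ) = g := Spec.map_preimage g
  have h1 : χ.comp (inc C hWS) = (algebraMap Q.R Q.K).comp θ := by
    apply specMap_ext
    rw [← cancel_mono (Mod.chart C S), e1, CommRingCat.ofHom_comp, Spec.map_comp, Category.assoc,
      Mod.w, hgχ, hgfac]
  have h2 : χ.comp (inc C hWT) = (algebraMap Q.R Q.K).comp θ' := by
    apply specMap_ext
    rw [← cancel_mono (Mod.chart C T), e2, CommRingCat.ofHom_comp, Spec.map_comp, Category.assoc,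
      Mod.w, hgχ, hgfac]
  have hmem : ∀ z : K, ∀ hz : z ∈ supC C W.fs, ∃ r : Q.R, algebraMap Q.R Q.K r = χ ⟨z, hz⟩ := by
    intro z hz
    have hz' : z ∈ Algebra.adjoin A ((supC C S.fs : Set K) ∪ (supC C T.fs : Set K)) := by
      have : supC C W.fs = supC C S.fs ⊔ supC C T.fs := by rw [hW, supC_union]
      rw [this] at hz
      exact hz
    have hsub : (Algebra.adjoin A ((supC C S.fs : Set K) ∪ (supC C T.fs : Set K))) ≤
        supC C W.fs := by
      rw [Algebra.adjoin_le_iff]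
      exact Set.union_subset (supC_mono C (Idx.subset hWS)) (supC_mono C (Idx.subset hWT))
    induction hz' using Algebra.adjoin_induction with
    | mem x hx =>
      rcases hx with hx | hx
      · exact ⟨θ ⟨x, hx⟩, (congrArg (fun f : supC C S.fs →+* Q.K => f ⟨x, hx⟩) h1).symm⟩
      · exact ⟨θ' ⟨x, hx⟩, (congrArg (fun f : supC C T.fs →+* Q.K => f ⟨x, hx⟩) h2).symm⟩
    | algebraMap a =>
      refine ⟨θ (algebraMap A _ a), ?_⟩
      exact (congrArg (fun f : supC C S.fs →+* Q.K => f (algebraMap A _ a)) h1).symm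
    | add x y hx hy ihx ihy =>
      obtain ⟨r, hr⟩ := ihx (hsub hx)
      obtain ⟨s, hs⟩ := ihy (hsub hy)
      refine ⟨r + s, ?_⟩
      rw [map_add, hr, hs, ← map_add]
      rfl
    | mul x y hx hy ihx ihy =>
      obtain ⟨r, hr⟩ := ihx (hsub hx)
      obtain ⟨s, hs⟩ := ihy (hsub hy)
      refine ⟨r * s, ?_⟩
      rw [map_mul, hr, hs, ← map_mul]
      rfl
  obtain ⟨χ', hχ'⟩ := exists_lift_ringHom hinjR χ (fun c => hmem c.1 c.2)
  have h3 : χ'.comp (inc C hWS) = θ := by
    ext d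
    apply hinjR
    rw [RingHom.comp_apply, hχ']
    exact congrArg (fun f : supC C S.fs →+* Q.K => f d) h1
  have h4 : χ'.comp (inc C hWT) = θ' := by
    ext d
    apply hinjR
    rw [RingHom.comp_apply, hχ']
    exact congrArg (fun f : supC C T.fs →+* Q.K => f d) h2
  have hll : l = l' := by
    rw [← hθ, ← hθ']
    exact (Mod.glue_eq C hWS hWT _ _ _ h3 h4).symm
  subst hll
  rfl

end Pool.Agent.H15Model
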