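import Pool.Agent.Lib.Model_H15.Away

/-! # Models in the sense of Zariski: gluing -/

set_option autoImplicit false

open AlgebraicGeometry CategoryTheory Limits

namespace Pool.Agent.H15Model

variable {A K : Type} [CommRing A] [Field K] [Algebra A K]
variable {ι : Type} [DecidableEq ι]

/-- The index category: nonempty finite sets of charts, larger sets mapping to smaller ones. -/
abbrev Idx (ι : Type) : Type := ({S : Finset ι // S.Nonempty})ᵒᵈ

/-- the finite set underlying an index -/
abbrev Idx.fs (S : Idx ι) : Finset ι := (OrderDual.ofDual S).1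

omit [DecidableEq ι] in
lemma Idx.nonempty (S : Idx ι) : S.fs.Nonempty := (OrderDual.ofDual S).2

omit [DecidableEq ι] in
lemma Idx.subset {S T : Idx ι} (h : S ≤ T) : T.fs ⊆ S.fs := h

/-- the index of a set -/
abbrev Idx.mk (S : Finset ι) (h : S.Nonempty) : Idx ι := OrderDual.toDual ⟨S, h⟩

/-- inclusion of the rings -/
noncomputable def inc (C : ι → Subalgebra A K) {S T : Idx ι} (h : S ≤ T) :
    supC C T.fs →+* supC C S.fs :=
  (Subalgebra.inclusion (supC_mono C (Idx.subset h))).toRingHom

omit [DecidableEq ι] in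
lemma inc_val (C : ι → Subalgebra A K) {S T : Idx ι} (h : S ≤ T) (x : supC C T.fs) :
    (inc C h x : K) = x := rfl

/-- The diagram of the spectra of the charts and of their intersections. -/
noncomputable def diag (C : ι → Subalgebra A K) : Idx ι ⥤ Scheme.{0} where
  obj S := Spec (CommRingCat.of (supC C S.fs))
  map {S T} f := Spec.map (CommRingCat.ofHom (inc C (leOfHom f)))
  map_id S := by
    have : inc C (leOfHom (𝟙 S)) = RingHom.id _ := by
      ext x; rfl
    rw [this, CommRingCat.ofHom_id]
    exact Spec.map_id _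
  map_comp {S T U} f g := by
    rw [← Spec.map_comp, ← CommRingCat.ofHom_comp]
    rfl

/-- The charts can be glued: the ring generated by two charts is a localization of each. -/
class IsGluable (C : ι → Subalgebra A K) : Prop where
  away : ∀ i j, IsAway (C i) (C i ⊔ C j)

lemma isOpenImmersion_of_awayOf {C C' : Subalgebra A K} {u : K} (h : AwayOf u C C') :
    IsOpenImmersion (Spec.map (CommRingCat.ofHom (Subalgebra.inclusion h.1).toRingHom)) := by
  let := (Subalgebra.inclusion h.1).toRingHom.toAlgebra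
  have := isLocalization_of_awayOf h
  exact IsOpenImmersion.of_isLocalization (⟨u, h.2.1⟩ : C)

lemma exists_comap_eq_of_awayOf {C C' : Subalgebra A K} {u : K} (h : AwayOf u C C')
    (x : PrimeSpectrum C) (hx : (⟨u, h.2.1⟩ : C) ∉ x.asIdeal) :
    ∃ z : PrimeSpectrum C', PrimeSpectrum.comap (Subalgebra.inclusion h.1).toRingHom z = x := by
  let := (Subalgebra.inclusion h.1).toRingHom.toAlgebra
  have := isLocalization_of_awayOf h
  have h1 := PrimeSpectrum.localization_away_comap_range C' (⟨u, h.2.1⟩ : C)
  have h2 : x ∈ Set.range (PrimeSpectrum.comap (algebraMap C C')) := by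
    rw [h1]; exact hx
  exact h2

instance isOpenImmersion_map (C : ι → Subalgebra A K) [hC : IsGluable C] {S T : Idx ι}
    (f : S ⟶ T) : IsOpenImmersion ((diag C).map f) := by
  obtain ⟨u, hu⟩ := isAway_supC_of_subset C hC.away T.nonempty (Idx.subset (leOfHom f))
  exact isOpenImmersion_of_awayOf hu

instance locallyDirected (C : ι → Subalgebra A K) [hC : IsGluable C] :
    (diag C ⋙ Scheme.forget).IsLocallyDirected := by
  constructor
  intro S T R f g x y hxy
  have hxy' : (diag C).map f x = (diag C).map g y := hxy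
  obtain ⟨u, hu⟩ := isAway_supC_of_subset C hC.away R.nonempty (Idx.subset (leOfHom g))
  have hST := hu.sup_right (supC_mono C (Idx.subset (leOfHom f)))
  rw [(supC_union C _ _).symm] at hST
  -- the point `x` avoids `u`
  have hux : (⟨u, hST.2.1⟩ : supC C S.fs) ∉ (show PrimeSpectrum (supC C S.fs) from x).asIdeal := by
    intro hmem
    have h1 : (⟨u, hu.2.1⟩ : supC C R.fs) ∈
        (show PrimeSpectrum (supC C R.fs) from (diag C).map f x).asIdeal := hmem
    rw [hxy'] at h1
    have h2 : (⟨u, hu.1 hu.2.1⟩ : supC C T.fs) ∈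
        (show PrimeSpectrum (supC C T.fs) from y).asIdeal := h1
    have h3 : (⟨u, hu.1 hu.2.1⟩ : supC C T.fs) * ⟨u⁻¹, hu.2.2.2.1⟩ = 1 :=
      Subtype.ext (mul_inv_cancel₀ hu.2.2.1)
    have h4 := Ideal.mul_mem_right ⟨u⁻¹, hu.2.2.2.1⟩ _ h2
    rw [h3] at h4
    exact (show PrimeSpectrum (supC C T.fs) from y).2.ne_top ((Ideal.eq_top_iff_one _).mpr h4)
  obtain ⟨z, hz⟩ := exists_comap_eq_of_awayOf hST _ hux
  have hne : (S.fs ∪ T.fs).Nonempty := S.nonempty.mono Finset.subset_union_left
  have hS : Idx.mk (S.fs ∪ T.fs) hne ≤ S := Finset.subset_union_left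
  have hT : Idx.mk (S.fs ∪ T.fs) hne ≤ T := Finset.subset_union_right
  refine ⟨Idx.mk (S.fs ∪ T.fs) hne, homOfLE hS, homOfLE hT, z, hz, ?_⟩
  apply ((diag C).map g).isOpenEmbedding.injective
  have e1 : (diag C).map g ((diag C).map (homOfLE hT) z) = (diag C).map (homOfLE hT ≫ g) z := by
    rw [Functor.map_comp]; rfl
  have e2 : (diag C).map f ((diag C).map (homOfLE hS) z) = (diag C).map (homOfLE hS ≫ f) z := by
    rw [Functor.map_comp]; rfl
  have e3 : homOfLE hT ≫ g = homOfLE hS ≫ f := Subsingleton.elim _ _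
  have e4 : (diag C).map (homOfLE hS) z = x := hz
  have e5 : (diag C).map g ((diag C).map (homOfLE hT) z) = (diag C).map g y := by
    rw [e1, e3, ← e2, e4, hxy']
  exact e5

end Pool.Agent.H15Model
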