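import Pool.Agent.Lib.Model_H15.Away

/-! # Models in the sense of Zariski: the key lemma on valuations -/

set_option autoImplicit false

namespace Pool.Agent.H15Model

variable {A K : Type} [CommRing A] [Field K] [Algebra A K]

/-- Given a point of the chart `D` with values in the fraction field of a valuation ring `R`, such
that the base `A` has values in `R`, there is a valuation ring `V` of `K` that contains `A` and that
controls the values. -/
lemma exists_valuation {R L : Type} [CommRing R] [IsDomain R] [ValuationRing R] [Field L]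
    [Algebra R L] [IsFractionRing R L] (D : Subalgebra A K) (φ : D →+* L) (ψ : A →+* R)
    (h : ∀ a : A, φ (algebraMap A D a) = algebraMap R L (ψ a)) :
    ∃ V : ValuationSubring K, (∀ a : A, algebraMap A K a ∈ V) ∧
      (∀ d : D, φ d = 0 → (d : K) ∈ V ∧ ∀ c ∈ V, (d : K) * c ≠ 1) ∧
      (∀ d s : D, φ d ≠ 0 → φ s ≠ 0 → (∀ r : R, algebraMap R L r ≠ φ d / φ s) →
        (d : K) / (s : K) ∉ V) := by
  set 𝔭 : Ideal D := RingHom.ker φ with h𝔭
  have hpr : 𝔭.IsPrime := RingHom.ker_isPrime φ
  have hinjR : Function.Injective (algebraMap R L) := IsFractionRing.injective R L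
  let T := Localization.AtPrime 𝔭
  have hφu : ∀ y : 𝔭.primeCompl, IsUnit (φ y) := by
    intro y
    rw [isUnit_iff_ne_zero]
    exact y.2
  have hKu : ∀ y : 𝔭.primeCompl, IsUnit (D.val.toRingHom (y : D)) := by
    intro y
    rw [isUnit_iff_ne_zero]
    intro h0
    have h1 : (y : D) = 0 := Subtype.ext h0
    exact y.2 (by rw [h1]; exact 𝔭.zero_mem)
  let φt : T →+* L := IsLocalization.lift (M := 𝔭.primeCompl) (S := T) (g := φ) hφu
  let κ : T →+* K := IsLocalization.lift (M := 𝔭.primeCompl) (S := T) (g := D.val.toRingHom) hKu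
  have hφt : ∀ d : D, φt (algebraMap D T d) = φ d := fun d => IsLocalization.lift_eq hφu d
  have hκ : ∀ d : D, κ (algebraMap D T d) = d := fun d => IsLocalization.lift_eq hKu d
  let T0 : Subring T := Subring.comap φt (algebraMap R L).range
  have hT0 : ∀ x : T, x ∈ T0 ↔ ∃ r : R, algebraMap R L r = φt x := fun x => Iff.rfl
  let e : R ≃+* (algebraMap R L).range := RingEquiv.ofBijective (algebraMap R L).rangeRestrict
    ⟨fun a b hab => hinjR (congrArg Subtype.val hab), (algebraMap R L).rangeRestrict_surjective⟩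
  let τ : T0 →+* R := e.symm.toRingHom.comp ((φt.comp T0.subtype).codRestrict _ (fun x => x.2))
  have hτ : ∀ x : T0, algebraMap R L (τ x) = φt x := by
    intro x
    have : e (τ x) = ⟨φt x, x.2⟩ := e.apply_symm_apply _
    exact congrArg Subtype.val this
  have hloc : IsLocalHom τ := by
    constructor
    intro x hx
    have h1 : φt x ≠ 0 := by
      rw [← hτ]
      exact (map_ne_zero_iff _ hinjR).mpr hx.ne_zero
    have h2 : IsUnit (x : T) := by
      by_contra hnu
      have h3 : (x : T) ∈ IsLocalRing.maximalIdeal T := hnu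
      rw [← Localization.AtPrime.map_eq_maximalIdeal] at h3
      have h4 : Ideal.map (algebraMap D T) 𝔭 ≤ RingHom.ker φt := by
        rw [Ideal.map_le_iff_le_comap]
        intro d hd
        change φt (algebraMap D T d) = 0
        rw [hφt]
        exact hd
      exact h1 (h4 h3)
    obtain ⟨y, hy⟩ := h2.exists_right_inv
    have h5 : φt y = (φt x)⁻¹ := by
      have := congrArg φt hy
      rw [map_mul, map_one] at this
      exact eq_inv_of_mul_eq_one_right this
    obtain ⟨r, hr⟩ := hx.exists_right_inv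
    have h6 : y ∈ T0 := by
      rw [hT0]
      refine ⟨r, ?_⟩
      rw [h5]
      have := congrArg (algebraMap R L) hr
      rw [map_mul, map_one, hτ] at this
      exact eq_inv_of_mul_eq_one_right this
    exact IsUnit.of_mul_eq_one (⟨y, h6⟩ : T0) (Subtype.ext hy)
  have hlocal : IsLocalRing T0 := RingHom.domain_isLocalRing τ
  obtain ⟨V, hV, hVloc⟩ := IsLocalRing.exists_factor_valuationRing (κ.comp T0.subtype)
  -- elements of `T0` whose inverse lies in `V` are units
  have hunit : ∀ x : T0, ∀ c ∈ V, κ x * c = 1 → IsUnit x := by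
    intro x c hc hxc
    have h1 : IsUnit ((κ.comp T0.subtype).codRestrict V.toSubring hV x) :=
      IsUnit.of_mul_eq_one (⟨c, hc⟩ : V.toSubring) (Subtype.ext hxc)
    exact hVloc.map_nonunit x h1
  refine ⟨V, ?_, ?_, ?_⟩
  · intro a
    have h1 : algebraMap D T (algebraMap A D a) ∈ T0 := by
      rw [hT0]
      exact ⟨ψ a, by rw [hφt, h]⟩
    have h2 := hV ⟨_, h1⟩
    have h3 : (κ.comp T0.subtype) ⟨_, h1⟩ = algebraMap A K a := hκ _
    rw [h3] at h2
    exact h2
  · intro d hd
    have h1 : algebraMap D T d ∈ T0 := by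
      rw [hT0]
      exact ⟨0, by rw [hφt, hd, map_zero]⟩
    have h3 : κ (⟨_, h1⟩ : T0) = d := hκ _
    refine ⟨?_, ?_⟩
    · have h2 := hV ⟨_, h1⟩
      have h4 : (κ.comp T0.subtype) ⟨_, h1⟩ = d := hκ _
      rw [h4] at h2
      exact h2
    · intro c hc hdc
      have h5 := hunit ⟨_, h1⟩ c hc (by rw [h3]; exact hdc)
      have h6 := h5.map τ
      have h7 : algebraMap R L (τ ⟨_, h1⟩) = 0 := by rw [hτ]; change φt (algebraMap D T d) = 0; rw [hφt, hd]
      rw [map_eq_zero_iff _ hinjR] at h7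
      rw [h7] at h6
      exact not_isUnit_zero h6
  · intro d s hd hs hr hmem
    -- the inverse `s / d` has value in the maximal ideal of `R`
    have hs0 : (s : K) ≠ 0 := fun h0 => hs (by
      have : s = 0 := Subtype.ext h0
      rw [this, map_zero])
    have hd0 : (d : K) ≠ 0 := fun h0 => hd (by
      have : d = 0 := Subtype.ext h0
      rw [this, map_zero])
    have hdm : d ∈ 𝔭.primeCompl := hd
    let x : T := IsLocalization.mk' T s ⟨d, hdm⟩
    have hx1 : φt x = φ s / φ d := by
      rw [eq_div_iff hd]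
      have := IsLocalization.mk'_spec T s ⟨d, hdm⟩
      have h2 := congrArg φt this
      rw [map_mul] at h2
      change φt x * φt (algebraMap D T d) = _ at h2
      rw [hφt, hφt] at h2
      exact h2
    have hx2 : κ x = (s : K) / d := by
      rw [eq_div_iff hd0]
      have := IsLocalization.mk'_spec T s ⟨d, hdm⟩
      have h2 := congrArg κ this
      rw [map_mul] at h2
      change κ x * κ (algebraMap D T d) = _ at h2
      rw [hκ, hκ] at h2
      exact h2
    obtain ⟨a, b, hb, hab⟩ := IsFractionRing.div_surjective (A := R) (φ d / φ s)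
    rcases ValuationRing.dvd_total a b with ⟨t, ht⟩ | ⟨t, ht⟩
    · -- `b = a t`
      have ha0 : algebraMap R L a ≠ 0 := by
        intro h0
        rw [h0, zero_div] at hab
        exact (div_ne_zero hd hs) hab.symm
      have h1 : φ s / φ d = algebraMap R L t := by
        have : φ s / φ d = (φ d / φ s)⁻¹ := by rw [inv_div]
        rw [this, ← hab, ht, map_mul, inv_div, mul_div_cancel_left₀ _ ha0]
      have hxT : x ∈ T0 := by
        rw [hT0]; exact ⟨t, by rw [hx1, h1]⟩
      have h2 := hunit ⟨x, hxT⟩ ((d : K) / s) hmem (by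
        change κ x * _ = 1
        rw [hx2]; field_simp)
      have h3 := h2.map τ
      have h4 : τ ⟨x, hxT⟩ = t := hinjR (by rw [hτ]; change φt x = _; rw [hx1, h1])
      rw [h4] at h3
      obtain ⟨t', ht'⟩ := h3.exists_right_inv
      refine hr t' ?_
      have h5 := congrArg (algebraMap R L) ht'
      rw [map_mul, map_one, ← h1] at h5
      have h6 : φ d / φ s = (φ s / φ d)⁻¹ := by rw [inv_div]
      rw [h6]
      exact eq_inv_of_mul_eq_one_right h5
    · -- `a = b t`
      have hb0 : algebraMap R L b ≠ 0 := (map_ne_zero_iff _ hinjR).mpr (nonZeroDivisors.ne_zero hb)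
      refine hr t ?_
      rw [← hab, ht, map_mul, mul_div_cancel_left₀ _ hb0]

lemma extend_to_chart {R L : Type} [CommRing R] [IsDomain R] [ValuationRing R] [Field L]
    [Algebra R L] [IsFractionRing R L] (D E : Subalgebra A K) {u : K} (hu : AwayOf u D (D ⊔ E))
    (φ : D →+* L) (V : ValuationSubring K)
    (hV1 : ∀ d : D, φ d = 0 → (d : K) ∈ V ∧ ∀ c ∈ V, (d : K) * c ≠ 1)
    (hV2 : ∀ d s : D, φ d ≠ 0 → φ s ≠ 0 → (∀ r : R, algebraMap R L r ≠ φ d / φ s) →
        (d : K) / (s : K) ∉ V)
    (hE : ∀ c ∈ E, c ∈ V) :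
    ∃ (χ : ↥(D ⊔ E) →+* L) (θ : E →+* R),
      (∀ d : D, χ ⟨d, (le_sup_left : D ≤ D ⊔ E) d.2⟩ = φ d) ∧
      (∀ c : E, χ ⟨c, (le_sup_right : E ≤ D ⊔ E) c.2⟩ = algebraMap R L (θ c)) := by
  have hinjR : Function.Injective (algebraMap R L) := IsFractionRing.injective R L
  have hφu : φ ⟨u, hu.2.1⟩ ≠ 0 := by
    intro h0
    have key : ∀ z ∈ (D.toSubmodule * E.toSubmodule : Submodule A K), ∀ d : D, φ d = 0 →
        (d : K) * z ∈ V ∧ ∀ c ∈ V, (d : K) * z * c ≠ 1 := by
      intro z hz
      induction hz using Submodule.mul_induction_on' with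
      | mem_mul_mem m hm n hn =>
        intro d hd
        have hm' : m ∈ D := hm
        have hn' : n ∈ E := hn
        have h1 : φ (d * ⟨m, hm'⟩) = 0 := by rw [map_mul, hd, zero_mul]
        have h2 := hV1 _ h1
        have h3 : (((d * ⟨m, hm'⟩ : D)) : K) = d * m := rfl
        rw [h3] at h2
        refine ⟨?_, ?_⟩
        · rw [← mul_assoc]; exact mul_mem h2.1 (hE n hn')
        · intro c hc
          have := h2.2 (n * c) (mul_mem (hE n hn') hc)
          intro h4
          apply this
          rw [← h4]; ring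
      | add x _ y _ ihx ihy =>
        intro d hd
        have hx := ihx d hd
        have hy := ihy d hd
        refine ⟨by rw [mul_add]; exact add_mem hx.1 hy.1, ?_⟩
        intro c hc h4
        -- a sum of non-units is a non-unit
        have nx : ∀ w : K, w ∈ V → (∀ c ∈ V, w * c ≠ 1) → ∀ hw : w ∈ V,
            (⟨w, hw⟩ : V) ∈ IsLocalRing.maximalIdeal V := by
          intro w _ hwc hw
          rw [IsLocalRing.mem_maximalIdeal, mem_nonunits_iff]
          intro hunit
          obtain ⟨t, ht⟩ := hunit.exists_right_inv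
          exact hwc t.1 t.2 (congrArg Subtype.val ht)
        have h5 := (IsLocalRing.maximalIdeal V).add_mem (nx _ hx.1 hx.2 hx.1) (nx _ hy.1 hy.2 hy.1)
        have h6 := (IsLocalRing.maximalIdeal V).mul_mem_right ⟨c, hc⟩ h5
        have h7 : ((⟨(d : K) * x, hx.1⟩ : V) + ⟨(d : K) * y, hy.1⟩) * ⟨c, hc⟩ = 1 := by
          apply Subtype.ext
          change ((d : K) * x + (d : K) * y) * c = 1
          rw [← h4]; ring
        rw [h7] at h6
        exact (IsLocalRing.maximalIdeal.isMaximal V).ne_top ((Ideal.eq_top_iff_one _).mpr h6)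
    have h1 : u⁻¹ ∈ (D.toSubmodule * E.toSubmodule : Submodule A K) := by
      rw [Subalgebra.mul_toSubmodule]
      exact hu.2.2.2.1
    have h2 := (key _ h1 ⟨u, hu.2.1⟩ h0).2 1 (one_mem _)
    apply h2
    change u * u⁻¹ * 1 = 1
    rw [mul_inv_cancel₀ hu.2.2.1, mul_one]
  let := (Subalgebra.inclusion hu.1).toRingHom.toAlgebra
  have hloc := isLocalization_of_awayOf hu
  let χ : ↥(D ⊔ E) →+* L := IsLocalization.Away.lift (S := ↥(D ⊔ E)) (⟨u, hu.2.1⟩ : D) (g := φ)
    (isUnit_iff_ne_zero.mpr hφu)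
  have hχ : ∀ d : D, χ ⟨d, (le_sup_left : D ≤ D ⊔ E) d.2⟩ = φ d := fun d =>
    IsLocalization.Away.lift_eq (S := ↥(D ⊔ E)) (⟨u, hu.2.1⟩ : D) (g := φ)
      (isUnit_iff_ne_zero.mpr hφu) d
  have hmem : ∀ c : E, ∃ r : R, algebraMap R L r = χ ⟨c, (le_sup_right : E ≤ D ⊔ E) c.2⟩ := by
    intro c
    by_contra hne
    push Not at hne
    obtain ⟨n, hn⟩ := hu.2.2.2.2 c ((le_sup_right : E ≤ D ⊔ E) c.2)
    have h1 : φ ⟨_, hn⟩ = χ ⟨c, (le_sup_right : E ≤ D ⊔ E) c.2⟩ * φ (⟨u, hu.2.1⟩ ^ n) := by
      rw [← hχ, ← hχ, ← map_mul]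
      rfl
    have h2 : φ (⟨u, hu.2.1⟩ ^ n) ≠ 0 := by
      rw [map_pow]; exact pow_ne_zero _ hφu
    have h3 : χ ⟨c, (le_sup_right : E ≤ D ⊔ E) c.2⟩ = φ ⟨_, hn⟩ / φ (⟨u, hu.2.1⟩ ^ n) := by
      rw [h1, mul_div_cancel_right₀ _ h2]
    have h4 : φ ⟨_, hn⟩ ≠ 0 := by
      intro h0
      apply hne 0
      rw [h3, h0, map_zero, zero_div]
    have h5 := hV2 ⟨_, hn⟩ (⟨u, hu.2.1⟩ ^ n) h4 h2 (by
      intro r
      rw [← h3]
      exact hne r)
    apply h5
    have h6 : ((⟨_, hn⟩ : D) : K) / ((⟨u, hu.2.1⟩ ^ n : D) : K) = c := by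
      change (c : K) * u ^ n / u ^ n = c
      exact mul_div_cancel_right₀ _ (pow_ne_zero _ hu.2.2.1)
    rw [h6]
    exact hE c c.2
  let e : R ≃+* (algebraMap R L).range := RingEquiv.ofBijective (algebraMap R L).rangeRestrict
    ⟨fun a b hab => hinjR (congrArg Subtype.val hab), (algebraMap R L).rangeRestrict_surjective⟩
  let incE : E →+* ↥(D ⊔ E) := (Subalgebra.inclusion (le_sup_right : E ≤ D ⊔ E)).toRingHom
  let θ : E →+* R := e.symm.toRingHom.comp ((χ.comp incE).codRestrict _ (fun c => hmem c))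
  refine ⟨χ, θ, hχ, ?_⟩
  intro c
  have : e (θ c) = ⟨χ (incE c), hmem c⟩ := e.apply_symm_apply _
  exact (congrArg Subtype.val this).symm

end Pool.Agent.H15Model
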