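import Pool.Agent.Lib.Model_H15.Glue
import Pool.Agent.Lib.Model_H15.Val

/-! # Models in the sense of Zariski: the scheme -/

set_option autoImplicit false

open AlgebraicGeometry CategoryTheory Limits

namespace Pool.Agent.H15Model

variable {A K : Type} [CommRing A] [Field K] [Algebra A K]
variable {ι : Type} [DecidableEq ι] (C : ι → Subalgebra A K) [IsGluable C]

/-- The scheme obtained by gluing the spectra of the charts. -/
noncomputable def Mod : Scheme.{0} := colimit (diag C)

/-- the inclusion of a chart -/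
noncomputable def Mod.chart (S : Idx ι) : Spec (CommRingCat.of (supC C S.fs)) ⟶ Mod C :=
  colimit.ι (diag C) S

instance (S : Idx ι) : IsOpenImmersion (Mod.chart C S) :=
  inferInstanceAs (IsOpenImmersion (colimit.ι (diag C) S))

lemma Mod.w {S T : Idx ι} (h : S ≤ T) :
    Spec.map (CommRingCat.ofHom (inc C h)) ≫ Mod.chart C T = Mod.chart C S :=
  colimit.w (diag C) (homOfLE h)

/-- The structure morphism. -/
noncomputable def Mod.π : Mod C ⟶ Spec (CommRingCat.of A) :=
  colimit.desc (diag C)
    { pt := Spec (CommRingCat.of A)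
      ι := { app := fun S => Spec.map (CommRingCat.ofHom (algebraMap A (supC C S.fs)))
             naturality := by
              intro S T f
              change Spec.map _ ≫ Spec.map _ = _ ≫ 𝟙 _
              rw [Category.comp_id, ← Spec.map_comp, ← CommRingCat.ofHom_comp]
              rfl } }

lemma Mod.chart_π (S : Idx ι) :
    Mod.chart C S ≫ Mod.π C = Spec.map (CommRingCat.ofHom (algebraMap A (supC C S.fs))) :=
  colimit.ι_desc _ _

lemma Mod.exists_chart (y : Mod C) : ∃ (S : Idx ι) (x : Spec (CommRingCat.of (supC C S.fs))),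
    Mod.chart C S x = y := Scheme.IsLocallyDirected.ι_jointly_surjective (diag C) y

/-- The open cover by all the charts. -/
noncomputable def Mod.cover : (Mod C).OpenCover := Scheme.IsLocallyDirected.openCover (diag C)

lemma Mod.cover_f (S : Idx ι) : (Mod.cover C).f S = Mod.chart C S := rfl

lemma Mod.eq_iff {S T : Idx ι} (x : Spec (CommRingCat.of (supC C S.fs)))
    (y : Spec (CommRingCat.of (supC C T.fs))) (h : Mod.chart C S x = Mod.chart C T y) :
    ∃ (W : Idx ι) (hS : W ≤ S) (hT : W ≤ T) (z : Spec (CommRingCat.of (supC C W.fs))),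
      W.fs = S.fs ∪ T.fs ∧
      Spec.map (CommRingCat.ofHom (inc C hS)) z = x ∧
      Spec.map (CommRingCat.ofHom (inc C hT)) z = y := by
  obtain ⟨W, fS, fT, z, hz, hz'⟩ :=
    (Scheme.IsLocallyDirected.ι_eq_ι_iff (diag C)).mp h
  have hne : (S.fs ∪ T.fs).Nonempty := S.nonempty.mono Finset.subset_union_left
  have h1 : W ≤ Idx.mk (S.fs ∪ T.fs) hne :=
    Finset.union_subset (Idx.subset (leOfHom fS)) (Idx.subset (leOfHom fT))
  have hS : Idx.mk (S.fs ∪ T.fs) hne ≤ S := Finset.subset_union_left
  have hT : Idx.mk (S.fs ∪ T.fs) hne ≤ T := Finset.subset_union_right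
  refine ⟨Idx.mk (S.fs ∪ T.fs) hne, hS, hT, (diag C).map (homOfLE h1) z, rfl, ?_, ?_⟩
  · have e1 : (diag C).map (homOfLE hS) ((diag C).map (homOfLE h1) z) =
        (diag C).map (homOfLE h1 ≫ homOfLE hS) z := by
      rw [Functor.map_comp]; rfl
    have e2 : homOfLE h1 ≫ homOfLE hS = fS := Subsingleton.elim _ _
    rw [e2] at e1
    exact e1.trans hz
  · have e1 : (diag C).map (homOfLE hT) ((diag C).map (homOfLE h1) z) =
        (diag C).map (homOfLE h1 ≫ homOfLE hT) z := by
      rw [Functor.map_comp]; rfl
    have e2 : homOfLE h1 ≫ homOfLE hT = fT := Subsingleton.elim _ _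
    rw [e2] at e1
    exact e1.trans hz'

end Pool.Agent.H15Model
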